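import Pool.Agent.P.MP_3e99c6_gt.SK.MainB

/-! A compact balanced Hermitian threefold with constant nonzero Bismut holomorphic sectional
curvature is Kaehler. -/

open Pool.Agent.P.MP_3e99c6_gt

theorem Pool.Agent.Results.MP_3e99c6_gt.BalancedThreefold.result (M : Type)
    [TopologicalSpace M] [T2Space M] [CompactSpace M] [ChartedSpace (V 3) M]
    (hM : ComplexMfd 3 M) (g : M → Bil 3) (hg : S.IsHermitian g) (hP : S.IsSqClosed g)
    (c : ℝ) (hc : c ≠ 0) (hH : S.ConstHSC g c) : S.IsKaehler g :=
  G.bal_main hM hg.un hP hc hH.un
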