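import Pool.Agent.P.MP_3e99c6_gt.Killing

/-! On a compact Hermitian manifold with constant nonzero Bismut holomorphic sectional curvature
every holomorphic Killing field has a zero. -/

open Pool.Agent.P.MP_3e99c6_gt

theorem Pool.Agent.Results.MP_3e99c6_gt.KillingField.result (n : ℕ) (M : Type)
    [TopologicalSpace M] [CompactSpace M] [Nonempty M] [ChartedSpace (V n) M]
    (hM : ComplexMfd n M) (g : M → Bil n) (hg : S.IsHermitian g)
    (c : ℝ) (hc : c ≠ 0) (hH : S.ConstHSC g c) (X : M → V n) (hX : S.IsHolKilling g X) :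
    ∃ x, X x = 0 :=
  killing_main hM hg.un hc hH.un hX
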